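import Pool.Agent.H.MP_2e62d5_co.E

namespace Pool.Agent.Results.MP_2e62d5_co.Yes

/-- `S ⊆ {1,2,3,…}` is syndetic: for some `L`, every block `{n,…,n+L}` meets `S`. -/
def Syndetic (S : Set ℕ+) : Prop :=
  ∃ L : ℕ, ∀ n : ℕ+, ∃ s ∈ S, (n : ℕ) ≤ s ∧ (s : ℕ) ≤ n + L

theorem result (S : Set ℕ+) (hS : Syndetic S) :
    ∃ A B : Set ℕ+, A.Infinite ∧ B.Infinite ∧ ∀ a ∈ A, ∀ b ∈ B, a * b ∈ S := by
  obtain ⟨L, hL⟩ := hS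
  obtain ⟨c, a, b, hc, ha, hb, hab⟩ := H.Rot.syndetic_product ((↑) '' S) L (fun n hn => by
    obtain ⟨s, hs, h⟩ := hL ⟨n, hn⟩
    exact ⟨s, ⟨s, hs, rfl⟩, h⟩)
  have ha' : ∀ i, i < c * a i := fun i => by
    have := Nat.mul_le_mul_right (a i) hc
    have := ha i
    omega
  have inf : ∀ (x : ℕ → ℕ) (hx : ∀ i, i < x i),
      (Set.range (fun i => (⟨x i, (Nat.zero_le i).trans_lt (hx i)⟩ : ℕ+))).Infinite := by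
    intro x hx hfin
    obtain ⟨m, hm⟩ := (hfin.image (fun z : ℕ+ => (z : ℕ))).bddAbove
    exact absurd (hm ⟨_, ⟨m, rfl⟩, rfl⟩) (not_le.2 (hx m))
  refine ⟨_, _, inf _ ha', inf _ hb, ?_⟩
  rintro _ ⟨i, rfl⟩ _ ⟨j, rfl⟩
  obtain ⟨s, hs, h⟩ := hab i j
  have : s = ⟨c * a i, (Nat.zero_le i).trans_lt (ha' i)⟩ * ⟨b j, (Nat.zero_le j).trans_lt (hb j)⟩ :=
    PNat.eq h
  rwa [← this]

end Pool.Agent.Results.MP_2e62d5_co.Yes
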